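import Pool.Agent.H726.LA.Gon

/-!
# Line arrangements in general position with only small subfamilies with distinct triangle areas
-/

set_option autoImplicit false

namespace Pool.Agent.Results.MP_5afd6b_co.SqrtUpper

/-- For every `n` there are `n` lines in general position in the plane such that every subfamily in
which different triples bound triangles of different areas has `k (k - 1) ≤ 2 (n + 1)`, where `k` is
its number of lines. -/
theorem result : ∀ n : ℕ, ∃ ℓ : Fin n → ℝ × ℝ × ℝ, Pool.Agent.H726.LA.GenPos ℓ ∧
    ∀ S : Finset (Fin n), Pool.Agent.H726.LA.DistinctAreas ℓ S →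
      S.card * (S.card - 1) ≤ 2 * (n + 1) :=
  fun n => Pool.Agent.H726.LA.upper n

end Pool.Agent.Results.MP_5afd6b_co.SqrtUpper
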