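import Pool.Agent.H726.LA.Main

/-!
# A subfamily with distinct triangle areas in every line arrangement in general position
-/

set_option autoImplicit false

namespace Pool.Agent.Results.MP_5afd6b_co.TenthRoot

/-- Every family of `n ≥ (4 k) ^ 10` lines in general position in the plane contains `k` lines such
that different triples of them bound triangles of different areas. -/
theorem result : ∀ (n k : ℕ), (4 * k) ^ 10 ≤ n → ∀ ℓ : Fin n → ℝ × ℝ × ℝ,
    Pool.Agent.H726.LA.GenPos ℓ →
    ∃ S : Finset (Fin n), S.card = k ∧ Pool.Agent.H726.LA.DistinctAreas ℓ S :=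
  fun n k hk ℓ hg => Pool.Agent.H726.LA.main n k hk ℓ hg

end Pool.Agent.Results.MP_5afd6b_co.TenthRoot
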